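import Pool.Agent.P.MP_e0e9b7_co.Defs

/-!
Basic facts on isolating and dominating sets, and on the Cartesian product.
-/

namespace Pool.Agent.P.MP_e0e9b7_co

open SimpleGraph Finset

variable {V W : Type*}

/-- equal or adjacent -/
def Near (G : SimpleGraph V) (w u : V) : Prop := w = u ∨ G.Adj w u

lemma Near.symm {G : SimpleGraph V} {w u : V} (h : Near G w u) : Near G u w :=
  h.imp Eq.symm SimpleGraph.Adj.symm

lemma mem_closedNbhd {G : SimpleGraph V} {A : Finset V} {v : V} :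
    v ∈ closedNbhd G A ↔ ∃ a ∈ A, Near G a v := by
  constructor
  · rintro (h | ⟨a, ha, h⟩)
    · exact ⟨v, h, Or.inl rfl⟩
    · exact ⟨a, ha, Or.inr h⟩
  · rintro ⟨a, ha, rfl | h⟩
    · exact Or.inl ha
    · exact Or.inr ⟨a, ha, h⟩

lemma isIsolating_iff {G : SimpleGraph V} {A : Finset V} :
    IsIsolating G A ↔ ∀ u v, G.Adj u v → ∃ a ∈ A, Near G a u ∨ Near G a v := by
  simp only [IsIsolating, mem_closedNbhd]
  refine forall₃_congr fun u v _ => ⟨?_, ?_⟩
  · rintro (⟨a, ha, h⟩ | ⟨a, ha, h⟩)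
    exacts [⟨a, ha, Or.inl h⟩, ⟨a, ha, Or.inr h⟩]
  · rintro ⟨a, ha, h | h⟩
    exacts [Or.inl ⟨a, ha, h⟩, Or.inr ⟨a, ha, h⟩]

lemma isolationNumber_le {G : SimpleGraph V} {A : Finset V}
    (h : ∀ u v, G.Adj u v → ∃ a ∈ A, Near G a u ∨ Near G a v) : isolationNumber G ≤ A.card :=
  Nat.sInf_le ⟨A, isIsolating_iff.2 h, rfl⟩

lemma dominationNumber_le {G : SimpleGraph V} {A : Finset V}
    (h : ∀ v, ∃ a ∈ A, Near G a v) : dominationNumber G ≤ A.card :=
  Nat.sInf_le ⟨A, fun v => mem_closedNbhd.2 (h v), rfl⟩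

lemma exists_isolating [Fintype V] (G : SimpleGraph V) : ∃ A : Finset V,
    (∀ u v, G.Adj u v → ∃ a ∈ A, Near G a u ∨ Near G a v) ∧ A.card = isolationNumber G := by
  have : {n | ∃ A : Finset V, IsIsolating G A ∧ A.card = n}.Nonempty :=
    ⟨_, univ, fun u v _ => Or.inl (Or.inl (mem_univ u)), rfl⟩
  obtain ⟨A, hA, hc⟩ := Nat.sInf_mem this
  exact ⟨A, isIsolating_iff.1 hA, hc⟩

lemma exists_dominating [Fintype V] (G : SimpleGraph V) : ∃ A : Finset V,
    (∀ v, ∃ a ∈ A, Near G a v) ∧ A.card = dominationNumber G := by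
  have : {n | ∃ A : Finset V, IsDominating G A ∧ A.card = n}.Nonempty :=
    ⟨_, univ, fun u => Or.inl (mem_univ u), rfl⟩
  obtain ⟨A, hA, hc⟩ := Nat.sInf_mem this
  exact ⟨A, fun v => mem_closedNbhd.1 (hA v), hc⟩

lemma isolationNumber_le_dominationNumber [Fintype V] (G : SimpleGraph V) :
    isolationNumber G ≤ dominationNumber G := by
  obtain ⟨A, hA, hc⟩ := exists_dominating G
  rw [← hc]
  exact isolationNumber_le fun u v _ => (hA u).imp fun a h => ⟨h.1, Or.inl h.2⟩

lemma near_boxProd {G : SimpleGraph V} {H : SimpleGraph W} {d : V × W} {x : V} {y : W}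
    (h : Near (G □ H) d (x, y)) : (Near G d.1 x ∧ d.2 = y) ∨ (d.1 = x ∧ H.Adj d.2 y) := by
  rcases h with rfl | h
  · exact Or.inl ⟨Or.inl rfl, rfl⟩
  · rcases boxProd_adj.1 h with h | h
    · exact Or.inl ⟨Or.inr h.1, h.2⟩
    · exact Or.inr ⟨h.2, h.1⟩

/-- A maximal matching inside `S`: `T` holds one endpoint of each edge, `Q` both. -/
lemma exists_matching [DecidableEq V] (G : SimpleGraph V) (S : Finset V) :
    ∃ T Q : Finset V, Q ⊆ S ∧ 2 * T.card ≤ Q.card ∧ (∀ q ∈ Q, ∃ a ∈ T, Near G a q) ∧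
      ∀ u ∈ S, ∀ v ∈ S, G.Adj u v → u ∈ Q ∨ v ∈ Q := by
  induction S using Finset.strongInduction with
  | H S ih =>
  by_cases h : ∃ u ∈ S, ∃ v ∈ S, G.Adj u v
  · obtain ⟨u, hu, v, hv, huv⟩ := h
    obtain ⟨T, Q, hQ, hc, hT, hm⟩ := ih ((S.erase u).erase v)
      ((erase_subset _ _).trans_ssubset (erase_ssubset hu))
    have huQ : u ∉ Q := fun h => by simpa using hQ h
    have hvQ : v ∉ Q := fun h => by simpa using hQ h
    refine ⟨insert u T, insert u (insert v Q), ?_, ?_, ?_, ?_⟩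
    · refine insert_subset hu (insert_subset hv (hQ.trans ?_))
      exact (erase_subset _ _).trans (erase_subset _ _)
    · rw [card_insert_of_notMem (s := insert v Q) (by simp [huQ, huv.ne]),
        card_insert_of_notMem hvQ]
      have := card_insert_le u T
      omega
    · intro q hq
      rcases mem_insert.1 hq with rfl | hq
      · exact ⟨q, mem_insert_self _ _, Or.inl rfl⟩
      rcases mem_insert.1 hq with rfl | hq
      · exact ⟨u, mem_insert_self _ _, Or.inr huv⟩
      · obtain ⟨a, ha, h⟩ := hT q hq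
        exact ⟨a, mem_insert_of_mem ha, h⟩
    · intro a ha b hb hab
      by_cases h1 : a = u ∨ a = v
      · left; rcases h1 with rfl | rfl <;> simp
      by_cases h2 : b = u ∨ b = v
      · right; rcases h2 with rfl | rfl <;> simp
      push Not at h1 h2
      rcases hm a (by simp [h1, ha]) b (by simp [h2, hb]) hab with h | h
      · left; simp [h]
      · right; simp [h]
  · push Not at h
    exact ⟨∅, ∅, empty_subset _, by simp, by simp, fun u hu v hv huv => absurd huv (h u hu v hv)⟩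

end Pool.Agent.P.MP_e0e9b7_co
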