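import Pool.Agent.P.MP_e0e9b7_co.Count
import Pool.Agent.Lib.Chordal.Dirac

/-!
In a chordal graph some induced matching needs `ι` vertices to touch all its edges; this gives
the product inequality when one factor is chordal.
-/

namespace Pool.Agent.P.MP_e0e9b7_co

open SimpleGraph Finset Pool.Agent.Lib.Chordal

variable {V W : Type*}

/-- `w` is equal or adjacent to an endpoint of `e` -/
def Touch (H : SimpleGraph W) (w : W) (e : W × W) : Prop := Near H w e.1 ∨ Near H w e.2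

/-- an endpoint of `e'` touches `e` -/
def Meet (H : SimpleGraph W) (e e' : W × W) : Prop := Touch H e'.1 e ∨ Touch H e'.2 e

lemma Meet.symm {H : SimpleGraph W} {e e' : W × W} (h : Meet H e e') : Meet H e' e := by
  rcases h with (h | h) | (h | h)
  exacts [Or.inl (Or.inl h.symm), Or.inr (Or.inl h.symm), Or.inl (Or.inr h.symm),
    Or.inr (Or.inr h.symm)]

lemma top_touch {H : SimpleGraph W} {f : W → ℕ} (hf : PEO H f) {u v a b : W} (huv : H.Adj u v)
    (h1 : f u < f v) (hab : H.Adj a b) (ha : Near H a u ∨ Near H a v)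
    (h2 : f v ≤ max (f a) (f b)) : Near H v a ∨ Near H v b := by
  rcases ha with (rfl | ha) | ha
  · exact Or.inl (Or.inr huv.symm)
  · rcases lt_trichotomy (f u) (f a) with h | h | h
    · exact Or.inl (hf.clique u v a huv ha.symm h1 h)
    · exact absurd (hf.inj h).symm ha.ne
    · have hb : f v ≤ f b := by omega
      rcases hf.clique a u b ha hab h (by omega) with h3 | h3
      · subst h3; omega
      · exact Or.inr (hf.clique u v b huv h3 h1 (by omega))
  · exact Or.inl ha.symm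

lemma exists_top {H : SimpleGraph W} {f : W → ℕ} (hf : PEO H f) {A : W × W}
    (hA : H.Adj A.1 A.2) : ∃ p, ∀ C : W × W, H.Adj C.1 C.2 → Meet H A C →
      max (f A.1) (f A.2) ≤ max (f C.1) (f C.2) → Touch H p C := by
  rcases lt_trichotomy (f A.1) (f A.2) with h | h | h
  · refine ⟨A.2, fun C hC hm hle => ?_⟩
    rcases hm with hm | hm
    · exact top_touch hf hA h hC hm (by omega)
    · exact (top_touch hf hA h hC.symm hm (by omega)).symm
  · exact absurd (hf.inj h) hA.ne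
  · refine ⟨A.1, fun C hC hm hle => ?_⟩
    rcases hm with hm | hm
    · exact top_touch hf hA.symm h hC (Or.symm hm) (by omega)
    · exact (top_touch hf hA.symm h hC.symm (Or.symm hm) (by omega)).symm

lemma conn_near {H : SimpleGraph W} {U : Set W} {x y z : W} (h : Conn H U x y) (hy : y ∈ U)
    (hz : z ∈ U) (hyz : Near H y z) : Conn H U x z := by
  rcases hyz with rfl | hyz
  · exact h
  · exact Relation.ReflTransGen.tail h ⟨hyz, hy, hz⟩

/-- The exchange argument. -/
lemma exchange [DecidableEq W] {H : SimpleGraph W} {f : W → ℕ} (hf : PEO H f)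
    {F : Finset (W × W)} (hF : ∀ e ∈ F, H.Adj e.1 e.2) {A B : W × W} (hA : A ∈ F)
    (hAB : A ≠ B) (hm : Meet H A B) {p : W} (hp : ∀ C ∈ F, Meet H A C → Touch H p C)
    {K L : Finset W} (hK : ∀ C ∈ F, C ≠ A → ∃ w ∈ K, Touch H w C) (hKA : ∀ w ∈ K, ¬ Touch H w A)
    (hL : ∀ C ∈ F, C ≠ B → ∃ w ∈ L, Touch H w C) :
    ∃ K' K'' : Finset W, (∀ C ∈ F, ∃ w ∈ K', Touch H w C) ∧ (∀ C ∈ F, ∃ w ∈ K'', Touch H w C) ∧
      K'.card + K''.card ≤ K.card + L.card + 1 := by
  classical
  let U : Set W := {w | ¬ Touch H w A}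
  let En : W → Prop := fun y => ∃ l ∈ L, l ∉ U ∧ ∃ y' ∈ U, H.Adj l y' ∧ Conn H U y' y
  let Out : W → Prop := fun y => y ∈ U ∧ ¬ En y
  have hEn : ∀ y z, y ∈ U → z ∈ U → Near H y z → En y → En z := by
    rintro y z hy hz hyz ⟨l, hl, hlU, y', hy', h1, h2⟩
    exact ⟨l, hl, hlU, y', hy', h1, conn_near h2 hy hz hyz⟩
  have hnm : ∀ C : W × W, ¬ Meet H A C → C.1 ∈ U ∧ C.2 ∈ U := fun C h =>
    ⟨fun h' => h (Or.inl h'), fun h' => h (Or.inr h')⟩
  have hsep : ∀ x ∈ ({A.1, A.2} : Set W), ∀ y ∈ U, x ≠ y ∧ ¬ H.Adj x y := by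
    rintro x (rfl | rfl) y hy
    · exact ⟨fun h => hy (Or.inl (Or.inl h.symm)), fun h => hy (Or.inl (Or.inr h.symm))⟩
    · exact ⟨fun h => hy (Or.inr (Or.inl h.symm)), fun h => hy (Or.inr (Or.inr h.symm))⟩
  have hconnA : ∀ x ∈ ({A.1, A.2} : Set W), ∀ x' ∈ ({A.1, A.2} : Set W),
      Conn H {A.1, A.2} x x' := by
    rintro x (rfl | rfl) x' (rfl | rfl)
    · exact .refl
    · exact .single ⟨hF A hA, by simp, by simp⟩
    · exact .single ⟨(hF A hA).symm, by simp, by simp⟩
    · exact .refl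
  have hbd : ∀ c y, c ∉ U → y ∈ U → H.Adj c y →
      c ∉ ({A.1, A.2} : Set W) ∧ ∃ x ∈ ({A.1, A.2} : Set W), H.Adj c x := by
    intro c y hc hy hcy
    have h1 : c ∉ ({A.1, A.2} : Set W) := fun h => (hsep c h y hy).2 hcy
    refine ⟨h1, ?_⟩
    have hc' : Touch H c A := not_not.1 hc
    rcases hc' with (h | h) | (h | h)
    · exact absurd (by simp [h]) h1
    · exact ⟨A.1, by simp, h⟩
    · exact absurd (by simp [h]) h1
    · exact ⟨A.2, by simp, h⟩
  have hclq : ∀ c y, c ∉ U → y ∈ U → H.Adj c y → En y → ∃ l ∈ L, l ∉ U ∧ Near H l c := by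
    rintro c y hc hy hcy ⟨l, hl, hlU, y', hy', h1, h2⟩
    obtain ⟨a1, x, hx, a2⟩ := hbd l y' hlU hy' h1
    obtain ⟨b1, x', hx', b2⟩ := hbd c y hc hy hcy
    exact ⟨l, hl, hlU, hf.two_paths hsep a1 hlU b1 hc hx a2 (hconnA x hx x' hx') b2.symm hy' h1 h2
      hcy.symm⟩
  refine ⟨K.filter Out ∪ L.filter (fun w => ¬ Out w),
    insert p (L.filter Out ∪ K.filter (fun w => ¬ Out w)), ?_, ?_, ?_⟩
  · intro C hC
    by_cases hCA : C = A
    · subst hCA
      obtain ⟨l, hl, h⟩ := hL C hC hAB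
      exact ⟨l, mem_union_right _ (mem_filter.2 ⟨hl, fun h' => h'.1 h⟩), h⟩
    obtain ⟨w, hw, h⟩ := hK C hC hCA
    have hwU : w ∈ U := hKA w hw
    by_cases hwo : En w
    swap
    · exact ⟨w, mem_union_left _ (mem_filter.2 ⟨hw, hwU, hwo⟩), h⟩
    have main : ∀ a b, H.Adj a b → Near H w a → (a ∉ U ∨ b ∉ U) →
        ∃ l ∈ L, l ∉ U ∧ (Near H l a ∨ Near H l b) := by
      intro a b hab hwa hor
      by_cases haU : a ∈ U
      · have hbU : b ∉ U := by tauto
        obtain ⟨l, hl, h1, h2⟩ := hclq b a hbU haU hab.symm (hEn w a hwU haU hwa hwo)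
        exact ⟨l, hl, h1, Or.inr h2⟩
      · rcases hwa with rfl | hwa
        · exact absurd hwU haU
        · obtain ⟨l, hl, h1, h2⟩ := hclq a w haU hwU hwa.symm hwo
          exact ⟨l, hl, h1, Or.inl h2⟩
    by_cases hmC : Meet H A C
    · have hor : C.1 ∉ U ∨ C.2 ∉ U := hmC.imp (fun h h' => h' h) (fun h h' => h' h)
      rcases h with h | h
      · obtain ⟨l, hl, h1, h2⟩ := main _ _ (hF C hC) h hor
        exact ⟨l, mem_union_right _ (mem_filter.2 ⟨hl, fun h' => h1 h'.1⟩), h2⟩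
      · obtain ⟨l, hl, h1, h2⟩ := main _ _ (hF C hC).symm h hor.symm
        exact ⟨l, mem_union_right _ (mem_filter.2 ⟨hl, fun h' => h1 h'.1⟩), h2.symm⟩
    · obtain ⟨h1, h2⟩ := hnm C hmC
      have e : En C.1 ∧ En C.2 := by
        rcases h with h | h
        · have := hEn w _ hwU h1 h hwo
          exact ⟨this, hEn _ _ h1 h2 (Or.inr (hF C hC)) this⟩
        · have := hEn w _ hwU h2 h hwo
          exact ⟨hEn _ _ h2 h1 (Or.inr (hF C hC).symm) this, this⟩
      obtain ⟨l, hl, h3⟩ := hL C hC (fun h => hmC (h ▸ hm))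
      refine ⟨l, mem_union_right _ (mem_filter.2 ⟨hl, fun h' => h'.2 ?_⟩), h3⟩
      rcases h3 with h3 | h3
      · exact hEn _ _ h1 h'.1 h3.symm e.1
      · exact hEn _ _ h2 h'.1 h3.symm e.2
  · intro C hC
    by_cases hmC : Meet H A C
    · exact ⟨p, mem_insert_self _ _, hp C hC hmC⟩
    obtain ⟨h1, h2⟩ := hnm C hmC
    have e : En C.1 ↔ En C.2 :=
      ⟨hEn _ _ h1 h2 (Or.inr (hF C hC)), hEn _ _ h2 h1 (Or.inr (hF C hC).symm)⟩
    by_cases hE : En C.1
    · obtain ⟨w, hw, h⟩ := hK C hC (fun h => hmC (h ▸ Or.inl (Or.inl (Or.inl rfl))))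
      refine ⟨w, mem_insert_of_mem (mem_union_right _ (mem_filter.2 ⟨hw, fun h' => h'.2 ?_⟩)), h⟩
      rcases h with h | h
      · exact hEn _ _ h1 h'.1 h.symm hE
      · exact hEn _ _ h2 h'.1 h.symm (e.1 hE)
    · obtain ⟨l, hl, h⟩ := hL C hC (fun h => hmC (h ▸ hm))
      have main : ∀ a, a ∈ U → ¬ En a → Near H l a → Out l := by
        intro a ha hna hla
        have hlU : l ∈ U := by
          by_contra hlU
          rcases hla with rfl | hla
          · exact hlU ha
          · exact hna ⟨l, hl, hlU, a, ha, hla, .refl⟩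
        exact ⟨hlU, fun h' => hna (hEn _ _ hlU ha hla h')⟩
      refine ⟨l, mem_insert_of_mem (mem_union_left _ (mem_filter.2 ⟨hl, ?_⟩)), h⟩
      rcases h with h | h
      · exact main _ h1 hE h
      · exact main _ h2 (fun h' => hE (e.2 h')) h
  · have e1 := card_union_le (K.filter Out) (L.filter fun w => ¬ Out w)
    have e2 := card_union_le (L.filter Out) (K.filter fun w => ¬ Out w)
    have e3 := card_insert_le p (L.filter Out ∪ K.filter fun w => ¬ Out w)
    have e4 := card_filter_add_card_filter_not (s := K) Out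
    have e5 := card_filter_add_card_filter_not (s := L) Out
    omega

theorem exists_critical [Fintype W] {H : SimpleGraph W} {f : W → ℕ} (hf : PEO H f) :
    ∃ F : Finset (W × W), (∀ e ∈ F, H.Adj e.1 e.2) ∧
      (∀ K : Finset W, (∀ e ∈ F, ∃ w ∈ K, Touch H w e) → isolationNumber H ≤ K.card) ∧
      ∀ e ∈ F, ∀ e' ∈ F, e ≠ e' → ¬ Meet H e e' := by
  classical
  let good : Finset (W × W) → Prop := fun F => (∀ e ∈ F, H.Adj e.1 e.2) ∧
    ∀ K : Finset W, (∀ e ∈ F, ∃ w ∈ K, Touch H w e) → isolationNumber H ≤ K.card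
  have hne : (univ.filter good).Nonempty := by
    refine ⟨univ.filter fun e => H.Adj e.1 e.2, mem_filter.2 ⟨mem_univ _, by simp, ?_⟩⟩
    intro K hK
    exact isolationNumber_le fun u v huv => hK (u, v) (by simpa using huv)
  obtain ⟨F, hF, hmin⟩ := exists_min_image _ card hne
  obtain ⟨hF1, hF2⟩ := (mem_filter.1 hF).2
  refine ⟨F, hF1, hF2, ?_⟩
  have hcrit : ∀ A ∈ F, ∃ K : Finset W, (∀ C ∈ F, C ≠ A → ∃ w ∈ K, Touch H w C) ∧
      (∀ w ∈ K, ¬ Touch H w A) ∧ K.card < isolationNumber H := by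
    intro A hA
    have : ¬ good (F.erase A) := fun h => by
      have := hmin _ (mem_filter.2 ⟨mem_univ _, h⟩)
      have := card_erase_lt_of_mem hA
      omega
    simp only [good, not_and, not_forall, not_le] at this
    obtain ⟨K, hK, hlt⟩ := this fun e he => hF1 e (mem_of_mem_erase he)
    have hK' : ∀ C ∈ F, C ≠ A → ∃ w ∈ K, Touch H w C := fun C hC h =>
      hK C (mem_erase.2 ⟨h, hC⟩)
    refine ⟨K, hK', fun w hw h => ?_, hlt⟩
    have := hF2 K fun e he => by
      by_cases h' : e = A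
      · exact ⟨w, hw, h' ▸ h⟩
      · exact hK' e he h'
    omega
  by_contra hcon
  have hne' : (F.filter fun e => ∃ e' ∈ F, e ≠ e' ∧ Meet H e e').Nonempty := by
    push Not at hcon
    obtain ⟨e, he, e', he', h1, h2⟩ := hcon
    exact ⟨e, mem_filter.2 ⟨he, e', he', h1, h2⟩⟩
  obtain ⟨A, hA, hAmin⟩ := exists_min_image _ (fun e : W × W => max (f e.1) (f e.2)) hne'
  obtain ⟨hA, B, hB, hAB, hm⟩ := mem_filter.1 hA
  obtain ⟨p, hp⟩ := exists_top hf (hF1 A hA)
  have hp' : ∀ C ∈ F, Meet H A C → Touch H p C := by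
    intro C hC h
    refine hp C (hF1 C hC) h ?_
    by_cases hCA : C = A
    · rw [hCA]
    · exact hAmin C (mem_filter.2 ⟨hC, A, hA, hCA, h.symm⟩)
  obtain ⟨K, hK, hKA, hKc⟩ := hcrit A hA
  obtain ⟨L, hL, -, hLc⟩ := hcrit B hB
  obtain ⟨K', K'', h1, h2, h3⟩ := exchange hf hF1 hA hAB hm hp' hK hKA hL
  have := hF2 K' h1
  have := hF2 K'' h2
  omega

theorem matching_bound [Fintype V] [Fintype W] (G : SimpleGraph V) (H : SimpleGraph W)
    {F : Finset (W × W)} (hF : ∀ e ∈ F, H.Adj e.1 e.2)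
    (hc : ∀ K : Finset W, (∀ e ∈ F, ∃ w ∈ K, Touch H w e) → isolationNumber H ≤ K.card)
    (hm : ∀ e ∈ F, ∀ e' ∈ F, e ≠ e' → ¬ Meet H e e') :
    dominationNumber G * isolationNumber H ≤ isolationNumber (G □ H) := by
  classical
  obtain ⟨D, hD, hDc⟩ := exists_isolating (G □ H)
  obtain ⟨K, hK, hKc⟩ := exists_isolating H
  rw [← hDc]
  have hK' : ∀ e : F, ∃ w ∈ K, Touch H w e := fun e => hK _ _ (hF e e.2)
  choose c hcK hc' using hK'
  let Y : W → W → Prop := fun j y => ∃ e : F, c e = j ∧ (y = e.1.1 ∨ y = e.1.2)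
  have hsame : ∀ e e' : F, ∀ y, Touch H y e → (y = e'.1.1 ∨ y = e'.1.2) → e = e' := by
    intro e e' y h1 h2
    by_contra hne
    refine hm e e.2 e' e'.2 (fun h => hne (Subtype.ext h)) ?_
    rcases h2 with rfl | rfl
    exacts [Or.inl h1, Or.inr h1]
  have hu : ∀ j j' y, Y j y → Y j' y → j = j' := by
    rintro j j' y ⟨e, rfl, h1⟩ ⟨e', rfl, h2⟩
    rw [hsame e e' y (h1.imp Or.inl Or.inl) h2]
  let P : W → V → Prop := fun j x => ∀ d ∈ D, Y j d.2 → ¬ Near G d.1 x
  have h1 := sum_rows_le D K Y hu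
  have h2 := sum_cols_le (D.filter fun d => ¬ ∃ j, Y j d.2) K P fun x => by
    have h3 := hc ((((D.filter fun d => ¬ ∃ j, Y j d.2).filter fun d => d.1 = x).image Prod.snd) ∪
        K.filter fun j => ¬ P j x) fun e he => by
      by_cases hP : P (c ⟨e, he⟩) x
      · obtain ⟨d, hd, h1, h2⟩ := col_touch hD (x := x) (hF e he)
          (fun d hd h => hP d hd ⟨⟨e, he⟩, rfl, Or.inl h⟩)
          (fun d hd h => hP d hd ⟨⟨e, he⟩, rfl, Or.inr h⟩)
        have ht : Touch H d.2 e := h2.imp Or.inr Or.inr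
        refine ⟨d.2, mem_union_left _ (mem_image_of_mem _
          (mem_filter.2 ⟨mem_filter.2 ⟨hd, ?_⟩, h1⟩)), ht⟩
        rintro ⟨j, e', rfl, h⟩
        have := hsame ⟨e, he⟩ e' d.2 ht h
        subst this
        exact hP d hd ⟨_, rfl, h⟩ (Or.inl h1)
      · exact ⟨c ⟨e, he⟩, mem_union_right _ (mem_filter.2 ⟨hcK _, hP⟩), hc' ⟨e, he⟩⟩
    have e1 := card_union_le
      (((D.filter fun d => ¬ ∃ j, Y j d.2).filter fun d => d.1 = x).image Prod.snd)
      (K.filter fun j => ¬ P j x)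
    have e2 := card_image_le (s := (D.filter fun d => ¬ ∃ j, Y j d.2).filter fun d => d.1 = x)
      (f := Prod.snd)
    have e3 := card_filter_add_card_filter_not (s := K) (fun j => P j x)
    omega
  have h3 : ∀ j ∈ K, dominationNumber G ≤
      (D.filter fun d => Y j d.2).card + (univ.filter fun x => P j x).card := by
    intro j _
    have h4 : dominationNumber G ≤
        ((D.filter fun d => Y j d.2).image Prod.fst ∪ univ.filter fun x => P j x).card := by
      refine dominationNumber_le fun w => ?_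
      by_cases hw : P j w
      · exact ⟨w, mem_union_right _ (mem_filter.2 ⟨mem_univ _, hw⟩), Or.inl rfl⟩
      · simp only [P, not_forall, not_not] at hw
        obtain ⟨d, hd, h, h'⟩ := hw
        exact ⟨d.1, mem_union_left _ (mem_image_of_mem _ (mem_filter.2 ⟨hd, h⟩)), h'⟩
    have e1 := card_union_le ((D.filter fun d => Y j d.2).image Prod.fst)
      (univ.filter fun x => P j x)
    have e2 := card_image_le (s := D.filter fun d => Y j d.2) (f := Prod.fst)
    omega
  have h4 := sum_le_sum h3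
  rw [sum_const, sum_add_distrib, smul_eq_mul, hKc] at h4
  have h5 := card_filter_add_card_filter_not (s := D) (fun d => ∃ j, Y j d.2)
  rw [mul_comm]
  omega

theorem chordal_bound [Fintype V] [Fintype W] (G : SimpleGraph V) (H : SimpleGraph W)
    (hH : IsChordal H) : dominationNumber G * isolationNumber H ≤ isolationNumber (G □ H) := by
  obtain ⟨f, hf⟩ := NoHole.exists_peo (H := H) hH
  obtain ⟨F, h1, h2, h3⟩ := exists_critical hf
  exact matching_bound G H h1 h2 h3

end Pool.Agent.P.MP_e0e9b7_co
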