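import Pool.Agent.P.MP_e0e9b7_co.Basic

/-!
Double counting in the product, and the two matching bounds.
-/

namespace Pool.Agent.P.MP_e0e9b7_co

open SimpleGraph Finset

variable {V W : Type*}

lemma sum_rows_le (D : Finset (V × W)) (K : Finset W) (Y : W → W → Prop)
    [∀ j y, Decidable (Y j y)] [∀ y, Decidable (∃ j, Y j y)]
    (hu : ∀ j j' y, Y j y → Y j' y → j = j') :
    ∑ j ∈ K, (D.filter fun d : V × W => Y j d.2).card ≤
      (D.filter fun d : V × W => ∃ j, Y j d.2).card := by
  classical
  rw [← card_biUnion]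
  · refine card_le_card fun d hd => ?_
    simp only [mem_biUnion, mem_filter] at hd ⊢
    obtain ⟨j, -, h1, h2⟩ := hd
    exact ⟨h1, j, h2⟩
  · intro j _ j' _ hne
    rw [Function.onFun, Finset.disjoint_left]
    intro d h1 h2
    exact hne (hu _ _ _ (mem_filter.1 h1).2 (mem_filter.1 h2).2)

lemma sum_cols_le [Fintype V] [DecidableEq V] (E : Finset (V × W)) (K : Finset W)
    (P : W → V → Prop) [∀ j x, Decidable (P j x)]
    (hE : ∀ x, (K.filter fun j => P j x).card ≤ (E.filter fun d => d.1 = x).card) :
    ∑ j ∈ K, (univ.filter fun x => P j x).card ≤ E.card := by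
  rw [card_eq_sum_card_fiberwise (f := Prod.fst) (s := E) (t := univ) (fun _ _ => by simp)]
  simp only [card_filter] at hE ⊢
  rw [sum_comm]
  exact sum_le_sum fun x _ => hE x

/-- If the columns of `x` carry no element of `D` in the rows `y`, `z` of an edge, then the edge is
touched inside the column. -/
lemma col_touch {G : SimpleGraph V} {H : SimpleGraph W} {D : Finset (V × W)}
    (hD : ∀ u v, (G □ H).Adj u v → ∃ a ∈ D, Near (G □ H) a u ∨ Near (G □ H) a v)
    {x : V} {y z : W} (hyz : H.Adj y z) (hy : ∀ d ∈ D, d.2 = y → ¬ Near G d.1 x)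
    (hz : ∀ d ∈ D, d.2 = z → ¬ Near G d.1 x) :
    ∃ d ∈ D, d.1 = x ∧ (H.Adj d.2 y ∨ H.Adj d.2 z) := by
  obtain ⟨d, hd, h | h⟩ := hD (x, y) (x, z) (boxProd_adj_right.2 hyz)
  · rcases near_boxProd h with h | h
    · exact absurd h.1 (hy d hd h.2)
    · exact ⟨d, hd, h.1, Or.inl h.2⟩
  · rcases near_boxProd h with h | h
    · exact absurd h.1 (hz d hd h.2)
    · exact ⟨d, hd, h.1, Or.inr h.2⟩

theorem two_mul_le [Fintype V] [Fintype W] (G : SimpleGraph V) (H : SimpleGraph W)
    (hH : 2 ≤ isolationNumber H) : 2 * isolationNumber G ≤ isolationNumber (G □ H) := by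
  classical
  obtain ⟨D, hD, hc⟩ := exists_isolating (G □ H)
  rw [← hc]
  obtain ⟨y, -⟩ : ∃ y : W, True := by
    by_contra h
    have := isolationNumber_le (G := H) (A := ∅) fun u _ _ => absurd ⟨u, trivial⟩ h
    simp only [card_empty] at this
    omega
  obtain ⟨z, z', hzz, hz⟩ : ∃ z z', H.Adj z z' ∧ ¬ (Near H y z ∨ Near H y z') := by
    by_contra h
    push Not at h
    have := isolationNumber_le (G := H) (A := {y}) fun u v huv => ⟨y, by simp, h u v huv⟩
    simp only [card_singleton] at this
    omega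
  set D₁ := D.filter fun d => d.2 = y with hD₁
  set D₂ := D.filter fun d => H.Adj y d.2 with hD₂
  set D₃ := D.filter fun d => ¬ Near H y d.2 with hD₃
  have hsum : D₁.card + D₂.card + D₃.card ≤ D.card := by
    rw [← card_union_of_disjoint, ← card_union_of_disjoint]
    · exact card_le_card (union_subset (union_subset (filter_subset _ _) (filter_subset _ _))
        (filter_subset _ _))
    · rw [Finset.disjoint_left]
      intro d h1 h2
      rcases mem_union.1 h1 with h1 | h1
      · exact (mem_filter.1 h2).2 (Or.inl (mem_filter.1 h1).2.symm)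
      · exact (mem_filter.1 h2).2 (Or.inr (mem_filter.1 h1).2)
    · rw [Finset.disjoint_left]
      intro d h1 h2
      exact (mem_filter.1 h2).2.ne (mem_filter.1 h1).2.symm
  set S := univ.filter fun x => ∀ d ∈ D₃, ¬ Near G d.1 x with hS
  obtain ⟨T, Q, hQ, hTQ, hT, hm⟩ := exists_matching G S
  have hSR : S ⊆ D₂.image Prod.fst := by
    intro x hx
    have hx' := (mem_filter.1 hx).2
    obtain ⟨d, hd, h1, h2⟩ := col_touch hD (x := x) hzz
      (fun d hd h => hx' d (mem_filter.2 ⟨hd, fun h' => hz (Or.inl (h ▸ h'))⟩))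
      (fun d hd h => hx' d (mem_filter.2 ⟨hd, fun h' => hz (Or.inr (h ▸ h'))⟩))
    refine mem_image.2 ⟨d, mem_filter.2 ⟨hd, ?_⟩, h1⟩
    have h3 : Near H y d.2 := by
      by_contra h
      exact hx' d (mem_filter.2 ⟨hd, h⟩) (Or.inl h1)
    rcases h3 with h3 | h3
    · exact absurd (h2.imp (fun h => Or.inr (h3 ▸ h)) (fun h => Or.inr (h3 ▸ h))) hz
    · exact h3
  have h1 : isolationNumber G ≤ (D₃.image Prod.fst ∪ T).card := by
    refine isolationNumber_le fun u v huv => ?_
    by_cases hu : u ∈ S
    · by_cases hv : v ∈ S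
      · rcases hm u hu v hv huv with h | h
        · obtain ⟨a, ha, h⟩ := hT _ h
          exact ⟨a, mem_union_right _ ha, Or.inl h⟩
        · obtain ⟨a, ha, h⟩ := hT _ h
          exact ⟨a, mem_union_right _ ha, Or.inr h⟩
      · simp only [hS, mem_filter, mem_univ, true_and, not_forall, not_not] at hv
        obtain ⟨d, hd, h⟩ := hv
        exact ⟨d.1, mem_union_left _ (mem_image_of_mem _ hd), Or.inr h⟩
    · simp only [hS, mem_filter, mem_univ, true_and, not_forall, not_not] at hu
      obtain ⟨d, hd, h⟩ := hu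
      exact ⟨d.1, mem_union_left _ (mem_image_of_mem _ hd), Or.inl h⟩
  have h2 : isolationNumber G ≤ (D₁.image Prod.fst ∪ T ∪ (D₂.image Prod.fst \ Q)).card := by
    refine isolationNumber_le fun u v huv => ?_
    have key : ∀ w, ∀ d ∈ D, Near (G □ H) d (w, y) →
        ∃ a ∈ D₁.image Prod.fst ∪ T ∪ (D₂.image Prod.fst \ Q), Near G a w := by
      intro w d hd h
      rcases near_boxProd h with h | h
      · exact ⟨d.1, mem_union_left _ (mem_union_left _
          (mem_image_of_mem _ (mem_filter.2 ⟨hd, h.2⟩))), h.1⟩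
      · by_cases hw : w ∈ Q
        · obtain ⟨a, ha, h⟩ := hT _ hw
          exact ⟨a, mem_union_left _ (mem_union_right _ ha), h⟩
        · exact ⟨w, mem_union_right _ (mem_sdiff.2
            ⟨mem_image.2 ⟨d, mem_filter.2 ⟨hd, h.2.symm⟩, h.1⟩, hw⟩), Or.inl rfl⟩
    obtain ⟨d, hd, h | h⟩ := hD (u, y) (v, y) (boxProd_adj_left.2 huv)
    · obtain ⟨a, ha, h⟩ := key u d hd h
      exact ⟨a, ha, Or.inl h⟩
    · obtain ⟨a, ha, h⟩ := key v d hd h
      exact ⟨a, ha, Or.inr h⟩
  have e1 := card_union_le (D₃.image Prod.fst) T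
  have e2 := card_union_le (D₁.image Prod.fst ∪ T) (D₂.image Prod.fst \ Q)
  have e3 := card_union_le (D₁.image Prod.fst) T
  have e4 := card_image_le (s := D₁) (f := Prod.fst)
  have e5 := card_image_le (s := D₂) (f := Prod.fst)
  have e6 := card_image_le (s := D₃) (f := Prod.fst)
  have e7 := card_sdiff_add_card_eq_card (hQ.trans hSR)
  omega

theorem one_mul_le [Fintype V] [Fintype W] (G : SimpleGraph V) (H : SimpleGraph W)
    (hH : 1 ≤ isolationNumber H) : isolationNumber G ≤ isolationNumber (G □ H) := by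
  classical
  obtain ⟨D, hD, hc⟩ := exists_isolating (G □ H)
  rw [← hc]
  obtain ⟨y, -⟩ : ∃ y : W, True := by
    by_contra h
    have := isolationNumber_le (G := H) (A := ∅) fun u _ _ => absurd ⟨u, trivial⟩ h
    simp only [card_empty] at this
    omega
  refine le_trans (isolationNumber_le fun u v huv => ?_) (card_image_le (s := D) (f := Prod.fst))
  have key : ∀ w, ∀ d ∈ D, Near (G □ H) d (w, y) → Near G d.1 w := by
    intro w d _ h
    rcases near_boxProd h with h | h
    · exact h.1
    · exact Or.inl h.1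
  obtain ⟨d, hd, h⟩ := hD (u, y) (v, y) (boxProd_adj_left.2 huv)
  exact ⟨d.1, mem_image_of_mem _ hd, h.imp (key u d hd) (key v d hd)⟩

theorem two_thirds [Fintype V] [Fintype W] (G : SimpleGraph V) (H : SimpleGraph W)
    (hH : isolationNumber H = dominationNumber H) :
    2 * (isolationNumber G * isolationNumber H) ≤ 3 * isolationNumber (G □ H) := by
  classical
  obtain ⟨D, hD, hc⟩ := exists_isolating (G □ H)
  obtain ⟨K, hK, hKc⟩ := exists_dominating H
  choose c hcK hc' using hK
  rw [← hc]
  let P : W → V → Prop := fun j x => ∀ d ∈ D, c d.2 = j → ¬ Near G d.1 x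
  have h1 := sum_rows_le D K (fun j y => c y = j) (fun j j' y h h' => h.symm.trans h')
  have h2 := sum_cols_le D K P fun x => by
    have h3 : isolationNumber H ≤
        ((D.filter fun d => d.1 = x).image Prod.snd ∪ K.filter fun j => ¬ P j x).card := by
      refine isolationNumber_le fun u v huv => ?_
      by_cases hu : P (c u) x
      · by_cases hv : P (c v) x
        · obtain ⟨d, hd, h1, h2⟩ := col_touch hD (x := x) huv
            (fun d hd h => hu d hd (by rw [h])) (fun d hd h => hv d hd (by rw [h]))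
          exact ⟨d.2, mem_union_left _ (mem_image_of_mem _ (mem_filter.2 ⟨hd, h1⟩)),
            h2.imp Or.inr Or.inr⟩
        · exact ⟨c v, mem_union_right _ (mem_filter.2 ⟨hcK v, hv⟩), Or.inr (hc' v)⟩
      · exact ⟨c u, mem_union_right _ (mem_filter.2 ⟨hcK u, hu⟩), Or.inl (hc' u)⟩
    have e1 := card_union_le ((D.filter fun d => d.1 = x).image Prod.snd)
      (K.filter fun j => ¬ P j x)
    have e2 := card_image_le (s := D.filter fun d => d.1 = x) (f := Prod.snd)
    have e3 := card_filter_add_card_filter_not (s := K) (fun j => P j x)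
    omega
  have h3 : ∀ j ∈ K, 2 * isolationNumber G ≤
      2 * (D.filter fun d => c d.2 = j).card + (univ.filter fun x => P j x).card := by
    intro j _
    obtain ⟨T, Q, hQ, hTQ, hT, hm⟩ := exists_matching G (univ.filter fun x => P j x)
    have h4 : isolationNumber G ≤ ((D.filter fun d => c d.2 = j).image Prod.fst ∪ T).card := by
      refine isolationNumber_le fun u v huv => ?_
      have key : ∀ w, ¬ P j w →
          ∃ a ∈ (D.filter fun d => c d.2 = j).image Prod.fst ∪ T, Near G a w := by
        intro w hw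
        simp only [P, not_forall, not_not] at hw
        obtain ⟨d, hd, h, h'⟩ := hw
        exact ⟨d.1, mem_union_left _ (mem_image_of_mem _ (mem_filter.2 ⟨hd, h⟩)), h'⟩
      by_cases hu : P j u
      · by_cases hv : P j v
        · rcases hm u (by simpa using hu) v (by simpa using hv) huv with h | h
          · obtain ⟨a, ha, h⟩ := hT _ h
            exact ⟨a, mem_union_right _ ha, Or.inl h⟩
          · obtain ⟨a, ha, h⟩ := hT _ h
            exact ⟨a, mem_union_right _ ha, Or.inr h⟩
        · obtain ⟨a, ha, h⟩ := key v hv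
          exact ⟨a, ha, Or.inr h⟩
      · obtain ⟨a, ha, h⟩ := key u hu
        exact ⟨a, ha, Or.inl h⟩
    have e1 := card_union_le ((D.filter fun d => c d.2 = j).image Prod.fst) T
    have e2 := card_image_le (s := D.filter fun d => c d.2 = j) (f := Prod.fst)
    have e3 := card_le_card hQ
    omega
  have h4 := sum_le_sum h3
  rw [sum_const, sum_add_distrib, ← mul_sum, smul_eq_mul, hKc, ← hH] at h4
  have h5 := card_filter_le D (fun d => ∃ j, c d.2 = j)
  have h6 := h1.trans h5
  nlinarith

end Pool.Agent.P.MP_e0e9b7_co
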