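import Mathlib

/-!
Definitions for the product inequality for the isolation number.
-/

namespace Pool.Agent.P.MP_e0e9b7_co

open SimpleGraph

variable {V : Type*}

/-- The closed neighbourhood `N[A]` of a vertex set. -/
def closedNbhd (G : SimpleGraph V) (A : Finset V) : Set V := {v | v ∈ A ∨ ∃ a ∈ A, G.Adj a v}

/-- `A` is isolating: no edge has both endpoints outside `N[A]`. -/
def IsIsolating (G : SimpleGraph V) (A : Finset V) : Prop :=
  ∀ u v, G.Adj u v → u ∈ closedNbhd G A ∨ v ∈ closedNbhd G A

/-- `A` is dominating: `N[A]` is the whole vertex set. -/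
def IsDominating (G : SimpleGraph V) (A : Finset V) : Prop := ∀ v, v ∈ closedNbhd G A

/-- The isolation number: the least size of an isolating set. -/
noncomputable def isolationNumber (G : SimpleGraph V) : ℕ :=
  sInf {n | ∃ A : Finset V, IsIsolating G A ∧ A.card = n}

/-- The domination number: the least size of a dominating set. -/
noncomputable def dominationNumber (G : SimpleGraph V) : ℕ :=
  sInf {n | ∃ A : Finset V, IsDominating G A ∧ A.card = n}

/-- A graph is chordal if it has no induced cycle of length at least four. -/
def IsChordal (G : SimpleGraph V) : Prop := ∀ n : ℕ, 4 ≤ n → ¬ (cycleGraph n ⊴ G)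

end Pool.Agent.P.MP_e0e9b7_co
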