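import Pool.Agent.P.MP_e0e9b7_co.Basic

/-!
A universal constant for the product inequality.
-/

namespace Pool.Agent.P.MP_e0e9b7_co

open SimpleGraph Finset

variable {V W : Type*}

/-- A fractional vertex cover of `H[S]` bounds the number of vertices needed to isolate `H[S]`. -/
lemma exists_of_frac [DecidableEq W] (H : SimpleGraph W) (c : W → ℝ) (hc : ∀ x, 0 ≤ c x)
    (S : Finset W) (h : ∀ u ∈ S, ∀ v ∈ S, H.Adj u v → 1 ≤ c u + c v) :
    ∃ T : Finset W, (T.card : ℝ) ≤ ∑ x ∈ S, c x ∧
      ∀ u ∈ S, ∀ v ∈ S, H.Adj u v → ∃ a ∈ T, Near H a u ∨ Near H a v := by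
  induction S using Finset.strongInduction with
  | H S ih =>
  by_cases hS : ∃ u ∈ S, ∃ v ∈ S, H.Adj u v
  · obtain ⟨u, hu, v, hv, huv⟩ := hS
    have hsub : (S.erase u).erase v ⊆ S := (erase_subset _ _).trans (erase_subset _ _)
    obtain ⟨T, hT, hm⟩ := ih ((S.erase u).erase v)
      ((erase_subset _ _).trans_ssubset (erase_ssubset hu))
      fun a ha b hb => h a (hsub ha) b (hsub hb)
    refine ⟨insert u T, ?_, fun a ha b hb hab => ?_⟩
    · have e1 := add_sum_erase S c hu
      have e2 := add_sum_erase (S.erase u) c (mem_erase.2 ⟨huv.ne', hv⟩)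
      have e3 : ((insert u T).card : ℝ) ≤ T.card + 1 := by exact_mod_cast card_insert_le u T
      have := h u hu v hv huv
      linarith
    · by_cases h1 : a = u ∨ a = v
      · refine ⟨u, mem_insert_self _ _, Or.inl ?_⟩
        rcases h1 with rfl | rfl
        exacts [Or.inl rfl, Or.inr huv]
      by_cases h2 : b = u ∨ b = v
      · refine ⟨u, mem_insert_self _ _, Or.inr ?_⟩
        rcases h2 with rfl | rfl
        exacts [Or.inl rfl, Or.inr huv]
      push Not at h1 h2
      obtain ⟨t, ht, h3⟩ := hm a (by simp [h1, ha]) b (by simp [h2, hb]) hab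
      exact ⟨t, mem_insert_of_mem ht, h3⟩
  · push Not at hS
    exact ⟨∅, by simpa using sum_nonneg fun x _ => hc x,
      fun u hu v hv huv => absurd huv (hS u hu v hv)⟩

/-- The colour pairs seen by one vertex have small total charge. -/
lemma exists_charge [DecidableEq V] [DecidableEq W] (I : Finset V) (Y : Finset W)
    (F : W → Finset V) (hF : ∀ y, F y ⊆ I) (r : ℝ) (hr : 0 ≤ r) (w : W → ℝ) (hw : ∀ y, 0 ≤ w y)
    (h : ∀ Z ⊆ Y, ((Z.biUnion F).card : ℝ) ≤ r + ∑ y ∈ Z, w y) :
    ∃ c : V → V → ℝ, (∀ i j, 0 ≤ c i j) ∧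
      (∀ y ∈ Y, ∀ i ∈ F y, ∀ j ∈ F y, r / (r + w y) ≤ c i j) ∧
      ∑ i ∈ I, ∑ j ∈ I, c i j ≤ 3 * r * (r + ∑ y ∈ Y, w y) := by
  obtain ⟨Z, hZ, hmax⟩ := exists_max_image Y.powerset
    (fun Z => ((Z.biUnion F).card : ℝ) - 3 / 2 * ∑ y ∈ Z, w y) ⟨∅, by simp⟩
  rw [mem_powerset] at hZ
  set U := Z.biUnion F with hU
  have hUI : U ⊆ I := biUnion_subset.2 fun y _ => hF y
  have h0 : 3 / 2 * ∑ y ∈ Z, w y ≤ U.card := by
    have := hmax ∅ (by simp)
    simp only [biUnion_empty, card_empty, Nat.cast_zero, sum_empty, mul_zero, sub_zero] at this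
    linarith
  have h1 : ∀ y ∈ Y \ Z, ((F y \ U).card : ℝ) ≤ 3 / 2 * w y := by
    intro y hy
    rw [mem_sdiff] at hy
    have := hmax (insert y Z) (mem_powerset.2 (insert_subset hy.1 hZ))
    rw [biUnion_insert, sum_insert hy.2, ← hU, ← card_sdiff_add_card] at this
    push_cast at this
    linarith
  have hα : ∀ y, 0 ≤ r / (r + w y) := fun y => div_nonneg hr (add_nonneg hr (hw y))
  refine ⟨fun i j => (if (i, j) ∈ U ×ˢ U then 1 else 0) +
    ∑ y ∈ Y \ Z, r / (r + w y) *
      if (i, j) ∈ (F y \ U) ×ˢ F y ∪ F y ×ˢ (F y \ U) then 1 else 0, fun i j => ?_, ?_, ?_⟩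
  · refine add_nonneg (by split_ifs <;> norm_num) (sum_nonneg fun y _ => mul_nonneg (hα y) ?_)
    split_ifs <;> norm_num
  · intro y hy i hi j hj
    have hnn : ∀ z ∈ Y \ Z, 0 ≤ r / (r + w z) *
        if (i, j) ∈ (F z \ U) ×ˢ F z ∪ F z ×ˢ (F z \ U) then (1 : ℝ) else 0 :=
      fun z _ => mul_nonneg (hα z) (by split_ifs <;> norm_num)
    beta_reduce
    by_cases hij : (i, j) ∈ U ×ˢ U
    · rw [if_pos hij]
      have := sum_nonneg hnn
      have : r / (r + w y) ≤ 1 := div_le_one_of_le₀ (by linarith [hw y]) (add_nonneg hr (hw y))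
      linarith
    · rw [if_neg hij, zero_add]
      have hyZ : y ∈ Y \ Z := mem_sdiff.2 ⟨hy, fun hz => hij (mem_product.2
        ⟨mem_biUnion.2 ⟨y, hz, hi⟩, mem_biUnion.2 ⟨y, hz, hj⟩⟩)⟩
      refine le_trans ?_ (single_le_sum hnn hyZ)
      rw [if_pos, mul_one]
      simp only [mem_product, not_and_or] at hij
      simp only [mem_union, mem_product, mem_sdiff]
      tauto
  · have hcount : ∀ P : Finset (V × V), P ⊆ I ×ˢ I →
        ∑ i ∈ I, ∑ j ∈ I, (if (i, j) ∈ P then (1 : ℝ) else 0) = P.card := by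
      intro P hP
      rw [← sum_product' (f := fun i j => if (i, j) ∈ P then (1 : ℝ) else 0)]
      simp [inter_eq_right.2 hP]
    simp only [sum_add_distrib]
    rw [hcount _ (product_subset_product hUI hUI)]
    have e1 : ∑ i ∈ I, ∑ j ∈ I, ∑ y ∈ Y \ Z, (r / (r + w y) *
        if (i, j) ∈ (F y \ U) ×ˢ F y ∪ F y ×ˢ (F y \ U) then (1 : ℝ) else 0) ≤
        ∑ y ∈ Y \ Z, 3 * r * w y := by
      rw [sum_congr rfl fun i _ => sum_comm, sum_comm]
      refine sum_le_sum fun y hy => ?_
      simp only [← mul_sum]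
      rw [hcount _ (union_subset (product_subset_product (sdiff_subset.trans (hF y)) (hF y))
        (product_subset_product (hF y) (sdiff_subset.trans (hF y))))]
      have e2 : (((F y \ U) ×ˢ F y ∪ F y ×ˢ (F y \ U)).card : ℝ) ≤
          2 * ((F y \ U).card * (F y).card) := by
        have := card_union_le ((F y \ U) ×ˢ F y) (F y ×ˢ (F y \ U))
        rw [card_product, card_product] at this
        have : (((F y \ U) ×ˢ F y ∪ F y ×ˢ (F y \ U)).card : ℝ) ≤
          (F y \ U).card * (F y).card + (F y).card * (F y \ U).card := by exact_mod_cast this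
        linarith
      have e3 : ((F y).card : ℝ) ≤ r + w y := by
        simpa using h {y} (singleton_subset_iff.2 (mem_sdiff.1 hy).1)
      have e4 : ((F y \ U).card : ℝ) * (F y).card ≤ 3 / 2 * w y * (r + w y) := by
        have := h1 y hy
        have := hw y
        gcongr
      rcases (add_nonneg hr (hw y)).eq_or_lt with e5 | e5
      · rw [← e5, div_zero, zero_mul]
        have := hw y
        positivity
      · calc _ ≤ r / (r + w y) * (3 * w y * (r + w y)) :=
              mul_le_mul_of_nonneg_left (by linarith) (hα y)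
          _ = _ := by field_simp
    have e2 := h Z hZ
    have e3 : ∑ y ∈ Y \ Z, w y + ∑ y ∈ Z, w y = ∑ y ∈ Y, w y := sum_sdiff hZ
    have e4 : 0 ≤ ∑ y ∈ Z, w y := sum_nonneg fun y _ => hw y
    rw [← mul_sum] at e1
    rw [card_product, ← e3]
    push_cast
    rw [← hU] at e2
    have e5 : (U.card : ℝ) * U.card ≤ (3 * r) * (r + ∑ y ∈ Z, w y) :=
      mul_le_mul (by linarith) e2 (Nat.cast_nonneg _) (by linarith)
    linarith

/-- Probability that a random subset avoids `X`. -/
lemma sum_avoid {α : Type*} [DecidableEq α] (D X : Finset α) (hX : X ⊆ D) (a : ℝ) :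
    ∑ B ∈ D.powerset, (a ^ B.card * (1 - a) ^ (D \ B).card) * (if Disjoint B X then 1 else 0) =
      (1 - a) ^ X.card := by
  have := prod_add (fun d => if d ∈ X then (0 : ℝ) else a) (fun _ => 1 - a) D
  have e1 : ∏ d ∈ D, ((if d ∈ X then (0 : ℝ) else a) + (1 - a)) = (1 - a) ^ X.card := by
    rw [prod_congr rfl (g := fun d => if d ∈ X then 1 - a else 1)
      fun d _ => by split_ifs <;> ring]
    simp [prod_ite_mem, inter_eq_right.2 hX]
  rw [← e1, this]
  refine sum_congr rfl fun B _ => ?_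
  rw [prod_const]
  split_ifs with hB
  · rw [prod_congr rfl (g := fun _ => a) fun d hd => if_neg (disjoint_left.1 hB hd), prod_const,
      mul_one]
  · obtain ⟨d, h1, h2⟩ := not_disjoint_iff.1 hB
    rw [prod_eq_zero (f := fun d => if d ∈ X then (0 : ℝ) else a) h1 (if_pos h2)]
    simp

lemma sum_weight {α : Type*} [DecidableEq α] (D : Finset α) (a : ℝ) :
    ∑ B ∈ D.powerset, (a ^ B.card * (1 - a) ^ (D \ B).card) = 1 := by
  simpa using sum_avoid D ∅ (empty_subset _) a

lemma sum_weight_card {α : Type*} [DecidableEq α] (D : Finset α) (a : ℝ) :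
    ∑ B ∈ D.powerset, (a ^ B.card * (1 - a) ^ (D \ B).card) * B.card = a * D.card := by
  have e1 : ∀ B ∈ D.powerset, (a ^ B.card * (1 - a) ^ (D \ B).card) * B.card =
      ∑ d ∈ D, (a ^ B.card * (1 - a) ^ (D \ B).card -
        a ^ B.card * (1 - a) ^ (D \ B).card * if Disjoint B {d} then 1 else 0) := by
    intro B hB
    rw [sum_congr rfl (g := fun d => a ^ B.card * (1 - a) ^ (D \ B).card *
      if d ∈ B then 1 else 0) fun d _ => by by_cases hd : d ∈ B <;> simp [hd], ← mul_sum]
    simp [inter_eq_right.2 (mem_powerset.1 hB)]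
  rw [sum_congr rfl e1, sum_comm]
  rw [sum_congr rfl (g := fun _ => a) fun d hd => by
    rw [sum_sub_distrib, sum_weight, sum_avoid D {d} (singleton_subset_iff.2 hd)]; simp]
  simp [mul_comm]

lemma decay (p : ℝ) (hp : 1 ≤ p) (s : ℕ) : (1 - 1 / p) ^ s * s ≤ p / Real.exp 1 := by
  have hp0 : 0 < p := by linarith
  have h1 : (1 - 1 / p) ^ s ≤ Real.exp (-(s / p)) := by
    have : 1 - 1 / p ≤ Real.exp (-(1 / p)) := by linarith [Real.add_one_le_exp (-(1 / p))]
    calc (1 - 1 / p) ^ s ≤ Real.exp (-(1 / p)) ^ s :=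
          pow_le_pow_left₀ (by rw [sub_nonneg, div_le_one hp0]; exact hp) this s
      _ = _ := by rw [← Real.exp_nat_mul]; congr 1; ring
  have h2 : s / p ≤ Real.exp (s / p - 1) := by linarith [Real.add_one_le_exp (s / p - 1)]
  have h3 : Real.exp (-(s / p)) * Real.exp (s / p - 1) = 1 / Real.exp 1 := by
    rw [← Real.exp_add, one_div, ← Real.exp_neg]; congr 1; ring
  calc (1 - 1 / p) ^ s * s ≤ Real.exp (-(s / p)) * s := by gcongr
    _ = p * (Real.exp (-(s / p)) * (s / p)) := by field_simp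
    _ ≤ p * (Real.exp (-(s / p)) * Real.exp (s / p - 1)) := by gcongr
    _ = _ := by rw [h3]; ring

theorem universal [Fintype V] [Fintype W] (G : SimpleGraph V) (H : SimpleGraph W) :
    (dominationNumber G : ℝ) * isolationNumber H ≤
      (3 + 3 / Real.exp 1) * isolationNumber (G □ H) := by
  classical
  obtain ⟨D, hD, hDc⟩ := exists_isolating (G □ H)
  obtain ⟨I, hI, hIc⟩ := exists_dominating G
  choose κ hκI hκ using hI
  rw [← hDc, ← hIc]
  rcases Nat.eq_zero_or_pos I.card with hp | hp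
  · rw [hp, Nat.cast_zero, zero_mul]; positivity
  set p : ℝ := (I.card : ℝ) with hpdef
  have hp1 : 1 ≤ p := by rw [hpdef]; exact_mod_cast hp
  have hp0 : 0 < p := by linarith
  let R : V → W → Prop := fun i h => ∀ d ∈ D, κ d.1 = i → ¬Near H d.2 h
  let r : W → ℝ := fun h => (D.filter fun d => d.2 = h).card
  have hr : ∀ h, 0 ≤ r h := fun h => Nat.cast_nonneg _
  have hrsum : ∀ Z : Finset W, ((D.filter fun d => d.2 ∈ Z).card : ℝ) = ∑ h ∈ Z, r h := by
    intro Z
    rw [card_eq_sum_card_fiberwise (s := D.filter fun d => d.2 ∈ Z) (f := Prod.snd) (t := Z)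
      fun d hd => (mem_filter.1 hd).2]
    push_cast
    refine sum_congr rfl fun h hh => ?_
    simp only [r]
    congr 2
    ext d
    simp only [mem_filter]
    constructor
    · rintro ⟨⟨a, _⟩, b⟩; exact ⟨a, b⟩
    · rintro ⟨a, b⟩; exact ⟨⟨a, b ▸ hh⟩, b⟩
  -- the row inequality
  have hrow : ∀ (Z : Finset W) (J : Finset V), J ⊆ I →
      (∀ i ∈ J, ∃ x ∈ Z, ∃ y ∈ Z, H.Adj x y ∧ R i x ∧ R i y) → (J.card : ℝ) ≤ ∑ h ∈ Z, r h := by
    intro Z J hJ h
    rw [← hrsum]
    have h1 : dominationNumber G ≤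
        ((D.filter fun d => d.2 ∈ Z).image Prod.fst ∪ (I \ J)).card := by
      refine dominationNumber_le fun g => ?_
      by_cases hg : κ g ∈ J
      · obtain ⟨x, hx, y, hy, hxy, rx, ry⟩ := h _ hg
        have key : ∀ z ∈ Z, R (κ g) z → ∀ d ∈ D, Near (G □ H) d (g, z) →
            ∃ a ∈ (D.filter fun d => d.2 ∈ Z).image Prod.fst ∪ (I \ J), Near G a g := by
          intro z hz rz d hd hn
          rcases near_boxProd hn with ⟨a, b⟩ | ⟨a, b⟩
          · exact ⟨d.1, mem_union_left _ (mem_image_of_mem _ (mem_filter.2 ⟨hd, b ▸ hz⟩)), a⟩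
          · exact absurd (Or.inr b) (rz d hd (by rw [a]))
        obtain ⟨d, hd, hn | hn⟩ := hD (g, x) (g, y) (boxProd_adj.2 (Or.inr ⟨hxy, rfl⟩))
        exacts [key x hx rx d hd hn, key y hy ry d hd hn]
      · exact ⟨κ g, mem_union_right _ (mem_sdiff.2 ⟨hκI g, hg⟩), hκ g⟩
    have h2 := card_union_le ((D.filter fun d => d.2 ∈ Z).image Prod.fst) (I \ J)
    have h3 := card_image_le (s := D.filter fun d => d.2 ∈ Z) (f := Prod.fst)
    have h4 := card_sdiff_add_card_eq_card hJ
    exact_mod_cast (by omega : J.card ≤ (D.filter fun d => d.2 ∈ Z).card)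
  let F : W → W → Finset V := fun x y => I.filter fun i => R i x ∧ R i y
  have hch : ∀ x : W, ∃ c : V → V → ℝ, (∀ i j, 0 ≤ c i j) ∧
      (∀ y ∈ H.neighborFinset x, ∀ i ∈ F x y, ∀ j ∈ F x y, r x / (r x + r y) ≤ c i j) ∧
      ∑ i ∈ I, ∑ j ∈ I, c i j ≤ 3 * r x * (r x + ∑ y ∈ H.neighborFinset x, r y) := by
    intro x
    refine exists_charge I _ (F x) (fun y => filter_subset _ _) (r x) (hr x) r hr fun Z hZ => ?_
    have hx : x ∉ Z := fun hx => H.notMem_neighborFinset_self x (hZ hx)
    rw [← sum_insert hx]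
    refine hrow _ _ (biUnion_subset.2 fun y _ => filter_subset _ _) fun i hi => ?_
    obtain ⟨y, hy, hi⟩ := mem_biUnion.1 hi
    exact ⟨x, mem_insert_self _ _, y, mem_insert_of_mem hy, (H.mem_neighborFinset x y).1 (hZ hy),
      (mem_filter.1 hi).2⟩
  choose c hc0 hc1 hc2 using hch
  let X : W → Finset (V × W) := fun x => D.filter fun d => d.2 ∈ insert x (H.neighborFinset x)
  have hX : ∀ x, ((X x).card : ℝ) = r x + ∑ y ∈ H.neighborFinset x, r y := fun x => by
    rw [hrsum, sum_insert (H.notMem_neighborFinset_self x)]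
  let A : V → ℝ := fun i => (D.filter fun d => κ d.1 = i).card
  have hA : ∑ i ∈ I, A i = D.card := by
    rw [card_eq_sum_card_fiberwise (f := fun d => κ d.1) (t := I) fun d _ => hκI d.1]
    push_cast; rfl
  -- the basic inequality
  have hmain : ∀ i ∈ I, ∀ j ∈ I, ∀ B ∈ D.powerset, (isolationNumber H : ℝ) ≤
      A i + A j + B.card + ∑ x, (if Disjoint B (X x) then 1 else 0) * c x i j := by
    intro i hi j hj B hB
    rw [mem_powerset] at hB
    obtain ⟨T, hT, hT'⟩ := exists_of_frac H (fun x => c x i j) (fun x => hc0 x i j)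
      (univ.filter fun x => R i x ∧ R j x ∧ Disjoint B (X x)) (by
        intro u hu v hv huv
        obtain ⟨u1, u2, _⟩ := (mem_filter.1 hu).2
        obtain ⟨v1, v2, _⟩ := (mem_filter.1 hv).2
        have e1 := hc1 u v ((H.mem_neighborFinset u v).2 huv) i (mem_filter.2 ⟨hi, u1, v1⟩) j
          (mem_filter.2 ⟨hj, u2, v2⟩)
        have e2 := hc1 v u ((H.mem_neighborFinset v u).2 huv.symm) i (mem_filter.2 ⟨hi, v1, u1⟩) j
          (mem_filter.2 ⟨hj, v2, u2⟩)
        have e3 := hrow {u, v} {i} (singleton_subset_iff.2 hi) fun k hk => by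
          rw [mem_singleton.1 hk]
          exact ⟨u, by simp, v, by simp, huv, u1, v1⟩
        rw [sum_pair huv.ne, card_singleton, Nat.cast_one] at e3
        have e4 : r u / (r u + r v) + r v / (r v + r u) = 1 := by
          rw [add_comm (r v) (r u), ← add_div, div_self (by linarith)]
        linarith)
    have h1 : isolationNumber H ≤ (((D.filter fun d => κ d.1 = i) ∪
        (D.filter fun d => κ d.1 = j) ∪ B).image Prod.snd ∪ T).card := by
      refine isolationNumber_le fun u v huv => ?_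
      have key : ∀ z, ¬(R i z ∧ R j z ∧ Disjoint B (X z)) → ∃ a ∈ ((D.filter fun d => κ d.1 = i) ∪
          (D.filter fun d => κ d.1 = j) ∪ B).image Prod.snd ∪ T, Near H a z := by
        intro z hz
        simp only [not_and_or, R, not_forall, not_not, not_disjoint_iff] at hz
        rcases hz with ⟨d, hd, e, hn⟩ | ⟨d, hd, e, hn⟩ | ⟨d, hd, e⟩
        · exact ⟨d.2, mem_union_left _ (mem_image_of_mem _ (by simp [hd, e])), hn⟩
        · exact ⟨d.2, mem_union_left _ (mem_image_of_mem _ (by simp [hd, e])), hn⟩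
        · refine ⟨d.2, mem_union_left _ (mem_image_of_mem _ (by simp [hd])), ?_⟩
          rcases mem_insert.1 (mem_filter.1 e).2 with e | e
          · exact Or.inl e
          · exact Or.inr ((H.mem_neighborFinset z _).1 e).symm
      by_cases hu : R i u ∧ R j u ∧ Disjoint B (X u)
      · by_cases hv : R i v ∧ R j v ∧ Disjoint B (X v)
        · obtain ⟨a, ha, h⟩ := hT' u (mem_filter.2 ⟨mem_univ _, hu⟩) v
            (mem_filter.2 ⟨mem_univ _, hv⟩) huv
          exact ⟨a, mem_union_right _ ha, h⟩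
        · obtain ⟨a, ha, h⟩ := key v hv
          exact ⟨a, ha, Or.inr h⟩
      · obtain ⟨a, ha, h⟩ := key u hu
        exact ⟨a, ha, Or.inl h⟩
    have h2 := card_union_le (((D.filter fun d => κ d.1 = i) ∪
        (D.filter fun d => κ d.1 = j) ∪ B).image Prod.snd) T
    have h3 := card_image_le (s := (D.filter fun d => κ d.1 = i) ∪
        (D.filter fun d => κ d.1 = j) ∪ B) (f := Prod.snd)
    have h4 := card_union_le ((D.filter fun d => κ d.1 = i) ∪ (D.filter fun d => κ d.1 = j)) B
    have h5 := card_union_le (D.filter fun d => κ d.1 = i) (D.filter fun d => κ d.1 = j)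
    have h6 : (isolationNumber H : ℝ) ≤ A i + A j + B.card + T.card := by
      simp only [A]
      exact_mod_cast (by omega : isolationNumber H ≤ (D.filter fun d => κ d.1 = i).card +
        (D.filter fun d => κ d.1 = j).card + B.card + T.card)
    have h7 : ∑ x ∈ univ.filter fun x => R i x ∧ R j x ∧ Disjoint B (X x), c x i j ≤
        ∑ x, (if Disjoint B (X x) then 1 else 0) * c x i j := by
      rw [sum_filter]
      refine sum_le_sum fun x _ => ?_
      have := hc0 x i j
      by_cases h : Disjoint B (X x) <;> simp only [h, if_true, if_false] <;> split_ifs <;>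
        simp_all
    linarith
  -- average over `B`
  have ha0 : 0 ≤ 1 - 1 / p := by rw [sub_nonneg, div_le_one hp0]; exact hp1
  have havg : ∀ i ∈ I, ∀ j ∈ I, (isolationNumber H : ℝ) ≤
      A i + A j + D.card / p + ∑ x, (1 - 1 / p) ^ (X x).card * c x i j := by
    intro i hi j hj
    have h1 := sum_le_sum fun B hB => mul_le_mul_of_nonneg_left (hmain i hi j hj B hB)
      (show 0 ≤ (1 / p) ^ B.card * (1 - 1 / p) ^ (D \ B).card by positivity)
    rw [← sum_mul, sum_weight, one_mul] at h1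
    simp only [mul_add, sum_add_distrib, ← sum_mul, sum_weight, one_mul, sum_weight_card,
      mul_sum] at h1
    rw [sum_comm] at h1
    simp only [← mul_assoc, ← sum_mul] at h1
    rw [sum_congr rfl fun x _ => by rw [sum_avoid D (X x) (filter_subset _ _)]] at h1
    rwa [one_div_mul_eq_div] at h1
  have hsum := sum_le_sum fun i hi => sum_le_sum fun j hj => havg i hi j hj
  simp only [sum_add_distrib, sum_const, nsmul_eq_mul, ← mul_sum, hA, ← hpdef] at hsum
  have hlast : ∑ i ∈ I, ∑ j ∈ I, ∑ x, (1 - 1 / p) ^ (X x).card * c x i j ≤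
      3 * (p / Real.exp 1) * D.card := by
    rw [sum_congr rfl fun i _ => sum_comm, sum_comm]
    have : (D.card : ℝ) = ∑ x, r x := by rw [← hrsum]; simp
    rw [this, mul_sum]
    refine sum_le_sum fun x _ => ?_
    simp only [← mul_sum]
    calc _ ≤ (1 - 1 / p) ^ (X x).card * (3 * r x * (X x).card) := by
          rw [hX]; exact mul_le_mul_of_nonneg_left (hc2 x) (by positivity)
      _ = 3 * ((1 - 1 / p) ^ (X x).card * (X x).card) * r x := by ring
      _ ≤ _ := by have := decay p hp1 (X x).card; have := hr x; gcongr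
  refine le_of_mul_le_mul_left ?_ hp0
  have e1 : p * (p * (D.card / p)) = p * D.card := by field_simp
  have e2 : p * ((3 + 3 / Real.exp 1) * D.card) =
    3 * (p * D.card) + 3 * (p / Real.exp 1) * D.card := by ring
  linarith

end Pool.Agent.P.MP_e0e9b7_co
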